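import Pool.Agent.Helper30.DL.GoalsB

set_option autoImplicit false

open Complex (I)
open Finset
open Pool.Agent.Helper30.DL

namespace Pool.Agent.Helper69.DL

theorem zgtot (hCST : CstStmt) (hWND : WndStmt) : ZgtotStmt := by
  intro k hk t ht e g w X U T hX hU hT
  obtain ⟨-, -, -, -, -, -, -, -, -, hlam, hex2, -, -, -, -, hom, -, -, -, -, -, -, -, hD, -, -⟩ :=
    hCST k hk t ht
  obtain ⟨hZ', -, -, -, -, -, -, -, -, -, hZ⟩ := hWND k hk t ht (th t * g) w
  have hD2 := (hD 2 (by norm_num) (by norm_num)).1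
  rw [← hX] at hZ
  set Z := Zf k t w with hZdef
  set Z' := Zf k t (nx k (pp t) (th t * g) w) with hZ'def
  have hUZ : U = lam t * Z := by rw [hU, hZ, hom]; ring
  have hZ'U : Z' = U - ((th t * g : ℝ) : ℂ) := by rw [hZ', hUZ]
  have hZU : Z = cj (lam t) * U := by
    rw [hUZ, ← mul_assoc, mul_comm (cj (lam t)) (lam t), hlam, one_mul]
  constructor
  · have hn : Complex.normSq (lam t) = 1 := by
      have h1 : (Complex.normSq (lam t) : ℂ) = 1 := by
        rw [← Complex.mul_conj]; exact hlam
      exact_mod_cast h1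
    have h2 : Complex.normSq Z = Complex.normSq U := by
      rw [hUZ, map_mul, hn, one_mul]
    have hre : U.re = -(del t) / 2 * X.re - cs t / 2 * X.im := by
      rw [hU]; simp [om, Complex.mul_re]
    rw [h2, hZ'U, Complex.normSq_apply, Complex.normSq_apply]
    simp only [Complex.sub_re, Complex.sub_im, Complex.ofReal_re, Complex.ofReal_im, sub_zero]
    rw [hre]
    ring
  · have key : Gam t e * Z ^ 2 - Gam t e * Z' ^ 2
        = ((th t : ℝ) : ℂ) * (((e : ℝ) : ℂ) * (((ph t : ℝ) : ℂ) * (kl t * U ^ 2)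
          + ((g : ℝ) : ℂ) * (((ph t : ℝ) : ℂ) * (kap t * lam t * Dm t 2 * T)))) := by
      rw [hZ'U, hT, hZU]
      unfold Gam kl
      rw [hex2]
      push_cast
      have e1 : lam t * cj (lam t) = 1 := hlam
      have e2 : Dm t 2 * (1 - lam t ^ 2) = (th t : ℂ) := hD2
      have e3 : lam t * Dm t 2 * (cj (lam t) ^ 2 - 1) = (th t : ℂ) * cj (lam t) := by
        have : lam t * Dm t 2 * (cj (lam t) ^ 2 - 1)
            = Dm t 2 * (1 - lam t ^ 2) * cj (lam t)
              + (lam t * cj (lam t) - 1) * (Dm t 2 * (cj (lam t) + lam t)) := by ring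
        rw [this, e2, e1]; ring
      linear_combination (((e : ℝ) : ℂ) * ((ph t : ℝ) : ℂ) * kap t * U ^ 2) * e3
    have := congrArg Complex.re key
    rw [Complex.sub_re, Complex.re_ofReal_mul, Complex.re_ofReal_mul, Complex.add_re,
      Complex.re_ofReal_mul, Complex.re_ofReal_mul, Complex.re_ofReal_mul] at this
    exact this

end Pool.Agent.Helper69.DL
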